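import Pool.Agent.Helper7.PX.Goals
import Pool.Agent.Helper88.CG.VP
import Pool.Agent.Helper85.RR.S1

/-!
# MP_69be96_nt, project PX, packet MS: the mean square for general coefficients
-/

set_option autoImplicit false

open Finset Filter Topology

open scoped Classical

namespace Pool.Agent.Helper12.PX

open Pool.Agent.Helper7.PX
open Pool.Agent.Helper88.PP (pr Rg om Sf SS uu vv ee LA VV QQ cost)
open Pool.Agent.Helper88.RR (gg ab TB nz Db VM)
open Pool.Agent.Helper88.GM (NI XI In)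
open Pool.Agent.Helper88.CG (pw qE mE)
open Pool.Agent.Helper88.TU (Su StmtTG)
open Pool.Agent.Helper85.RR (ab_nonneg mem_TB card_TB prod_TB)

/-- the factor `t^(2K)` is harmless -/
theorem tpow : ∀ c' : ℝ, 0 < c' → ∀ t : ℝ, 1 ≤ t → ∃ E0 : ℕ, ∀ E : ℕ, E0 ≤ E →
    t ^ (2 * (E / 16 / mE E + 3)) * Real.exp (-(c' * E)) ≤ Real.exp (-(c' / 2 * E)) := by
  intro c' hc' t ht
  obtain ⟨c0, -, E1, hE1⟩ := Pool.Agent.Helper88.CG.vp
  refine ⟨max E1 (⌈(4 * Real.log t / c') ^ 2⌉₊ + 1), fun E hE => ?_⟩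
  obtain ⟨-, -, -, h4, -, -⟩ := hE1 E ((le_max_left _ _).trans hE)
  have ht0 : 0 < t := by linarith
  have hlt : 0 ≤ Real.log t := Real.log_nonneg ht
  set k := E / 16 / mE E + 2 with hk
  have hk0 : 2 ≤ k := Nat.le_add_left 2 _
  have hE2 : (4 * Real.log t / c') ^ 2 ≤ (E : ℝ) := by
    refine (Nat.le_ceil _).trans ?_
    exact_mod_cast (Nat.le_succ _).trans ((le_max_right _ _).trans hE)
  have hk2 : (2 * k) ^ 2 ≤ E := (Nat.pow_le_pow_right (by omega) (by norm_num)).trans h4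
  have hkr : (2 * k : ℝ) ≤ √(E : ℝ) := by
    apply Real.le_sqrt_of_sq_le
    exact_mod_cast hk2
  have hsr : 4 * Real.log t / c' ≤ √(E : ℝ) := Real.le_sqrt_of_sq_le hE2
  have hs : √(E : ℝ) * √(E : ℝ) = E := Real.mul_self_sqrt (Nat.cast_nonneg _)
  have hs0 : 0 ≤ √(E : ℝ) := Real.sqrt_nonneg _
  have h5 : (2 * (k + 1) : ℕ) * Real.log t ≤ c' / 2 * E := by
    have h6 : ((2 * (k + 1) : ℕ) : ℝ) ≤ 2 * √(E : ℝ) := by
      have h7 : 2 * (k + 1) ≤ 2 * (2 * k) := by omega
      have h8 : ((2 * (k + 1) : ℕ) : ℝ) ≤ ((2 * (2 * k) : ℕ) : ℝ) := by exact_mod_cast h7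
      push_cast at h8 ⊢
      linarith
    have h9 : 4 * Real.log t ≤ √(E : ℝ) * c' := (div_le_iff₀ hc').1 hsr
    calc ((2 * (k + 1) : ℕ) : ℝ) * Real.log t ≤ 2 * √(E : ℝ) * Real.log t :=
          mul_le_mul_of_nonneg_right h6 hlt
      _ = √(E : ℝ) / 2 * (4 * Real.log t) := by ring
      _ ≤ √(E : ℝ) / 2 * (√(E : ℝ) * c') := mul_le_mul_of_nonneg_left h9 (by positivity)
      _ = c' / 2 * (√(E : ℝ) * √(E : ℝ)) := by ring
      _ = c' / 2 * E := by rw [hs]
  have h10 : t ^ (2 * (k + 1)) = Real.exp ((2 * (k + 1) : ℕ) * Real.log t) := by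
    rw [Real.exp_nat_mul, Real.exp_log ht0]
  show t ^ (2 * (k + 1)) * Real.exp (-(c' * E)) ≤ Real.exp (-(c' / 2 * E))
  rw [h10, ← Real.exp_add]
  apply Real.exp_le_exp.2
  linarith

/-- **Packet MS**. -/
theorem ms : StmtTG → StmtMS := by
  rintro ⟨c', hc', E1, hE1⟩
  refine ⟨c' / 2, by positivity, fun t ht => ?_⟩
  obtain ⟨E2, hE2⟩ := tpow c' hc' t ht
  obtain ⟨c0, -, E3, hE3⟩ := Pool.Agent.Helper88.CG.vp
  refine ⟨max (max E1 E2) (max E3 1), fun E z x y hE hS b hb P hP hPo a ha => ?_⟩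
  have g1 : E1 ≤ E := (le_max_left _ _).trans ((le_max_left _ _).trans hE)
  have g2 : E2 ≤ E := (le_max_right _ _).trans ((le_max_left _ _).trans hE)
  have g3 : E3 ≤ E := (le_max_left _ _).trans ((le_max_right _ _).trans hE)
  have g4 : 1 ≤ E := (le_max_right _ _).trans ((le_max_right _ _).trans hE)
  have hz2 : 2 ≤ z := by
    have h1 : (1 : ℝ) + 1 ≤ z := by
      have h2 : (1 : ℝ) ≤ E := by exact_mod_cast g4
      have h3 := Real.add_one_le_exp (E : ℝ)
      have h4 := hS.1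
      linarith
    have h5 : ((2 : ℕ) : ℝ) ≤ z := by
      push_cast
      linarith
    exact_mod_cast h5
  obtain ⟨v1, v2, v3, v4, v5, v6⟩ := hE3 E g3
  have hq1 : 1 ≤ qE E := Nat.one_le_two_pow
  have hqm : qE E * mE E ≤ E / 16 := by
    refine le_trans ?_ v2
    rw [pow_two, mul_assoc]
    exact Nat.le_mul_of_pos_left _ (by omega)
  have ht0 : 0 < t := by linarith
  set K := E / 16 / mE E + 1 with hK
  set s := t ^ (K + 1) with hs
  have hs0 : 0 < s := by positivity
  have hK3 : K ^ 3 ≤ E := by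
    refine le_trans ?_ v4
    calc K ^ 3 ≤ (2 * (E / 16 / mE E + 2)) ^ 3 := Nat.pow_le_pow_left (by omega) 3
      _ ≤ (2 * (E / 16 / mE E + 2)) ^ 6 :=
          Nat.pow_le_pow_right (Nat.succ_le_of_lt (by positivity)) (by norm_num)
  have key := hE1 E z x y g1 hS (x / 32) x (QQ x) b ⟨dvd_rfl, hb, by omega⟩ (mE E) (qE E) K
    (E / 16) v1 hqm (v6 z hz2).1 hK3 (Nat.div_le_div_left (by norm_num) (by norm_num)) le_rfl
    P hP hPo (TE E z P) (fun r => a r / s) ∅ ∅ (by simp) (by simp) (by simp)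
    (fun r hr i _ _ => (mem_TB hr).1 i) (fun r hr i hi => absurd hi (Finset.notMem_empty i))
    (fun r hr i hi => absurd hi (Finset.notMem_empty i))
    (fun r hr => (card_TB v1 hz2 hr).trans (Nat.le_succ _))
    (fun r hr => (prod_TB hz2 hr).trans (Nat.pow_le_pow_right (by omega) (by omega)))
    (fun r hr => by
      have h1 := ha r hr
      have h2 : nz r ≤ K := (card_TB v1 hz2 hr).trans (Nat.le_succ _)
      have h3 : (∏ i : P, (if r i = 0 then (1 : ℝ) else t * ab (mE E) (qE E) z (r i))) =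
          t ^ nz r * ∏ i : P, (if r i = 0 then 1 else ab (mE E) (qE E) z (r i)) := by
        have h4 : t ^ nz r = ∏ i : P, (if r i = 0 then 1 else t) := by
          unfold nz
          rw [Finset.prod_ite, Finset.prod_const_one, one_mul, Finset.prod_const]
        rw [h4, ← Finset.prod_mul_distrib]
        refine Finset.prod_congr rfl fun i _ => ?_
        split_ifs
        · ring
        · rfl
      have h0 : 0 ≤ ∏ i : P, (if r i = 0 then (1 : ℝ) else ab (mE E) (qE E) z (r i)) := by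
        refine Finset.prod_nonneg fun i _ => ?_
        split_ifs
        · exact zero_le_one
        · exact ab_nonneg _ _ _ _
      have h5 : (∏ i : P, (if i ∈ (∅ : Finset P) then 1 / (VM (E / 16) z * (Nat.totient (r i) : ℝ))
          else if i ∈ (∅ : Finset P) then (if r i = 1 then 1 else ab (mE E) (qE E) z (r i)) else
          if r i = 0 then 1 else ab (mE E) (qE E) z (r i))) =
          ∏ i : P, (if r i = 0 then (1 : ℝ) else ab (mE E) (qE E) z (r i)) := by
        refine Finset.prod_congr rfl fun i _ => ?_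
        rw [if_neg (Finset.notMem_empty i), if_neg (Finset.notMem_empty i)]
      rw [h5, abs_div, abs_of_pos hs0, div_le_iff₀ hs0]
      refine h1.trans ?_
      rw [h3, ← mul_assoc, mul_comm _ s]
      refine mul_le_mul_of_nonneg_right ?_ h0
      rw [hs, ← pow_succ']
      exact pow_le_pow_right₀ ht (by omega))
  have hXI : 0 ≤ XI (x / 32) x (QQ x) := by
    unfold XI
    positivity
  have e1 : ∀ n, GW E z y a n ^ 2 =
      s ^ 2 * (∑ r ∈ TE E z P, a r / s * ∏ i, vv y z (r i) (n + (i : ℕ))) ^ 2 := by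
    intro n
    rw [← mul_pow, Finset.mul_sum]
    unfold GW
    congr 1
    refine Finset.sum_congr rfl fun r _ => ?_
    field_simp
  have e2 : GD E z y a = s ^ 2 * ∑ r ∈ TE E z P, (a r / s) ^ 2 *
      (gg y z (nz r) * ∏ i, (if r i = 0 then 1 else (Nat.totient (r i) : ℝ))) := by
    unfold GD gw
    rw [Finset.mul_sum]
    refine Finset.sum_congr rfl fun r _ => ?_
    field_simp
  have e3 : ∑ n ∈ NI (x / 32) x (QQ x) b, GW E z y a n ^ 2 - XI (x / 32) x (QQ x) * GD E z y a =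
      s ^ 2 * (∑ n ∈ NI (x / 32) x (QQ x) b,
        (∑ r ∈ TE E z P, a r / s * ∏ i, vv y z (r i) (n + (i : ℕ))) ^ 2
      - XI (x / 32) x (QQ x) * ∑ r ∈ TE E z P, (a r / s) ^ 2 *
      (gg y z (nz r) * ∏ i, (if r i = 0 then 1 else (Nat.totient (r i) : ℝ)))) := by
    rw [mul_sub, Finset.mul_sum, Finset.sum_congr rfl fun n _ => e1 n, e2]
    ring
  rw [e3, abs_mul, abs_of_pos (by positivity : (0 : ℝ) < s ^ 2)]
  have h6 := hE2 E g2
  calc s ^ 2 * |∑ n ∈ NI (x / 32) x (QQ x) b,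
        (∑ r ∈ TE E z P, a r / s * ∏ i, vv y z (r i) (n + (i : ℕ))) ^ 2
      - XI (x / 32) x (QQ x) * ∑ r ∈ TE E z P, (a r / s) ^ 2 *
      (gg y z (nz r) * ∏ i, (if r i = 0 then 1 else (Nat.totient (r i) : ℝ)))|
      ≤ s ^ 2 * (Real.exp (-(c' * E)) * om y z ^ ((∅ : Finset P).card + (∅ : Finset P).card) *
          XI (x / 32) x (QQ x)) := mul_le_mul_of_nonneg_left key (by positivity)
    _ = (s ^ 2 * Real.exp (-(c' * E))) * XI (x / 32) x (QQ x) := by
        rw [Finset.card_empty, Nat.add_zero, pow_zero]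
        ring
    _ ≤ Real.exp (-(c' / 2 * E)) * XI (x / 32) x (QQ x) := by
        refine mul_le_mul_of_nonneg_right ?_ hXI
        refine le_trans (mul_le_mul_of_nonneg_right ?_ (Real.exp_pos _).le) h6
        rw [hs, ← pow_mul]
        exact pow_le_pow_right₀ ht (by omega)

end Pool.Agent.Helper12.PX
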